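import Mathlib

set_option autoImplicit false
set_option linter.all false

/-!
# Non-selective q-points which are sums of p-points (under CH)
-/

namespace Pool.Agent.R588.QP

open Set Filter Cardinal

/-- Nonprincipal. -/
def Nonprincipal (U : Ultrafilter ℕ) : Prop := ∀ n : ℕ, ({n} : Set ℕ) ∉ U

/-- A p-point: every function is constant or finite-to-one on some set of the ultrafilter. -/
def IsPPoint (U : Ultrafilter ℕ) : Prop :=
  Nonprincipal U ∧ ∀ f : ℕ → ℕ, (∃ X ∈ U, ∃ c, ∀ x ∈ X, f x = c) ∨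
    ∃ X ∈ U, ∀ m, {x ∈ X | f x = m}.Finite

/-- A q-point: every finite-to-one function is injective on some set of the ultrafilter. -/
def IsQPoint (U : Ultrafilter ℕ) : Prop :=
  Nonprincipal U ∧ ∀ f : ℕ → ℕ, (∀ m, {x | f x = m}.Finite) → ∃ X ∈ U, InjOn f X

/-- Selective: every function is constant or injective on some set of the ultrafilter. -/
def IsSelective (U : Ultrafilter ℕ) : Prop :=
  Nonprincipal U ∧ ∀ f : ℕ → ℕ, (∃ X ∈ U, ∃ c, ∀ x ∈ X, f x = c) ∨ ∃ X ∈ U, InjOn f X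

/-- Tukey reducibility of `V` to `U`: some monotone map from `U` to `V` has cofinal image. -/
def TukeyLE (V U : Ultrafilter ℕ) : Prop :=
  ∃ g : Set ℕ → Set ℕ, (∀ A ∈ U, g A ∈ V) ∧ (∀ A ∈ U, ∀ B ∈ U, A ⊆ B → g A ⊆ g B) ∧
    ∀ B ∈ V, ∃ A ∈ U, g A ⊆ B

/-- The Fubini limit of the ultrafilters `V n` along `W`, moved to `ℕ` by the pairing bijection
`Nat.pair`. -/
def fubiniLim (W : Ultrafilter ℕ) (V : ℕ → Ultrafilter ℕ) : Ultrafilter ℕ :=
  W.bind fun n => (V n).map (Nat.pair n)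

/-- `Iterate k U`: the ultrafilter `U` is a Fubini iterate of p-points of depth at most `k`. -/
inductive Iterate : ℕ → Ultrafilter ℕ → Prop
  | base {U : Ultrafilter ℕ} : IsPPoint U → Iterate 1 U
  | mono {k : ℕ} {U : Ultrafilter ℕ} : Iterate k U → Iterate (k + 1) U
  | lim {k : ℕ} {W : Ultrafilter ℕ} {V : ℕ → Ultrafilter ℕ} :
      IsPPoint W → (∀ n, Iterate k (V n)) → Iterate (k + 1) (fubiniLim W V)

theorem mem_fubiniLim {W : Ultrafilter ℕ} {V : ℕ → Ultrafilter ℕ} {A : Set ℕ} :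
    A ∈ fubiniLim W V ↔ {n | {x | Nat.pair n x ∈ A} ∈ V n} ∈ W := by
  rfl

theorem TukeyLE.refl (U : Ultrafilter ℕ) : TukeyLE U U :=
  ⟨id, fun _ h => h, fun _ _ _ _ h => h, fun B h => ⟨B, h, subset_rfl⟩⟩

/-! ### systems of distinct representatives -/

theorem exists_sdr (S : ℕ → Set ℕ) (hS : ∀ i, (S i).Infinite) :
    ∃ g : ℕ → ℕ, Function.Injective g ∧ ∀ i, g i ∈ S i := by
  classical
  have h : ∀ (i : ℕ) (F : Finset ℕ), ∃ x, x ∈ S i ∧ x ∉ F := fun i F =>
    (hS i).exists_notMem_finset F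
  choose ch h1 h2 using h
  let used : ℕ → Finset ℕ := fun n => Nat.rec ∅ (fun i F => insert (ch i F) F) n
  have hu : ∀ i, used (i + 1) = insert (ch i (used i)) (used i) := fun i => rfl
  have hmono : Monotone used := monotone_nat_of_le_succ fun i => by
    rw [hu]; exact Finset.subset_insert _ _
  have hlt : ∀ i j, i < j → ch i (used i) ≠ ch j (used j) := by
    intro i j hij he
    have : ch i (used i) ∈ used j := hmono hij (by
      show _ ∈ used (i + 1)
      rw [hu]; exact Finset.mem_insert_self _ _)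
    rw [he] at this
    exact h2 j _ this
  refine ⟨fun i => ch i (used i), ?_, fun i => h1 i _⟩
  intro i j hij
  rcases lt_trichotomy i j with h | h | h
  · exact absurd hij (hlt i j h)
  · exact h
  · exact absurd hij.symm (hlt j i h)

/-! ### the poset -/

/-- Sequences of infinite sets. -/
def Pos : Type := {A : ℕ → Set ℕ // ∀ n, (A n).Infinite}

/-- Almost inclusion in every coordinate. -/
def R (B A : Pos) : Prop := ∀ n, (B.1 n \ A.1 n).Finite

theorem R.refl (A : Pos) : R A A := fun n => by simp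

theorem R.trans {A B C : Pos} (h : R A B) (h' : R B C) : R A C := fun n =>
  ((h n).union (h' n)).subset fun x hx => by
    by_cases hb : x ∈ B.1 n
    · exact Or.inr ⟨hb, hx.2⟩
    · exact Or.inl ⟨hx.1, hb⟩

theorem R.of_subset {A B : Pos} (h : ∀ n, A.1 n ⊆ B.1 n) : R A B := fun n => by
  rw [diff_eq_empty.2 (h n)]; exact finite_empty

theorem exists_lower (C : Set Pos) (hC : C.Countable)
    (hchain : ∀ A ∈ C, ∀ B ∈ C, R A B ∨ R B A) : ∃ B, ∀ A ∈ C, R B A := by
  rcases C.eq_empty_or_nonempty with rfl | hne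
  · exact ⟨⟨fun _ => univ, fun _ => infinite_univ⟩, by simp⟩
  have key : ∀ n : ℕ, ∃ B : Set ℕ, B.Infinite ∧ ∀ A ∈ C, (B \ A.1 n).Finite := by
    intro n
    haveI : Nonempty C := hne.to_subtype
    haveI : Countable C := hC.to_subtype
    have hF : ∀ A : C, (cofinite ⊓ 𝓟 (A.1.1 n)).NeBot := fun A =>
      cofinite_inf_principal_neBot_iff.2 (A.1.2 n)
    have hle : ∀ A B : C, R A.1 B.1 →
        cofinite ⊓ 𝓟 (A.1.1 n) ≤ cofinite ⊓ 𝓟 (B.1.1 n) := by
      intro A B hAB
      refine le_inf inf_le_left ?_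
      rw [le_principal_iff, mem_inf_principal]
      rw [mem_cofinite]
      refine (hAB n).subset ?_
      intro x hx
      simpa using hx
    have hdir : Directed (· ≥ ·) fun A : C => cofinite ⊓ 𝓟 (A.1.1 n) := by
      intro A B
      rcases hchain A.1 A.2 B.1 B.2 with h | h
      · exact ⟨A, le_rfl, hle A B h⟩
      · exact ⟨B, hle B A h, le_rfl⟩
    haveI : (⨅ A : C, cofinite ⊓ 𝓟 (A.1.1 n)).NeBot := iInf_neBot_of_directed' hdir hF
    haveI : (cofinite : Filter ℕ).IsCountablyGenerated := by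
      rw [Nat.cofinite_eq_atTop]; infer_instance
    haveI : (⨅ A : C, cofinite ⊓ 𝓟 (A.1.1 n)).IsCountablyGenerated := inferInstance
    obtain ⟨x, hx⟩ := exists_seq_tendsto (⨅ A : C, cofinite ⊓ 𝓟 (A.1.1 n))
    rw [tendsto_iInf] at hx
    obtain ⟨A₀⟩ := ‹Nonempty C›
    have h1 : Tendsto x atTop cofinite := (hx A₀).mono_right inf_le_left
    refine ⟨range x, ?_, ?_⟩
    · intro hfin
      have h2 : ∀ᶠ i in atTop, x i ∈ (range x)ᶜ := h1 hfin.compl_mem_cofinite
      obtain ⟨i, hi⟩ := h2.exists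
      exact hi ⟨i, rfl⟩
    · intro A hA
      have h2 : ∀ᶠ i in atTop, x i ∈ A.1 n :=
        (hx ⟨A, hA⟩).eventually (mem_inf_of_right (mem_principal_self _))
      obtain ⟨N, hN⟩ := eventually_atTop.1 h2
      refine ((finite_Iio N).image x).subset ?_
      rintro _ ⟨⟨i, rfl⟩, hi⟩
      refine ⟨i, ?_, rfl⟩
      by_contra hc
      exact hi (hN i (not_lt.1 hc))
  choose B hB1 hB2 using key
  exact ⟨⟨B, hB1⟩, fun A hA n => hB2 n A hA⟩

/-- The density requirement given by a function `h`. -/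
def Dn (h : ℕ → ℕ) : Set Pos :=
  {A | (∀ n, (∃ c, ∀ x ∈ A.1 n, h x = c) ∨ InjOn h (A.1 n)) ∧
    ((∀ m, {x | h x = m}.Finite) → InjOn h {y | ∃ n, ∃ x ∈ A.1 n, y = Nat.pair n x})}

theorem exists_const_or_inj (A : Set ℕ) (hA : A.Infinite) (h : ℕ → ℕ) :
    ∃ B ⊆ A, B.Infinite ∧ ((∃ c, ∀ x ∈ B, h x = c) ∨ InjOn h B) := by
  by_cases hfin : ∃ c, {x ∈ A | h x = c}.Infinite
  · obtain ⟨c, hc⟩ := hfin
    exact ⟨_, fun x hx => hx.1, hc, Or.inl ⟨c, fun x hx => hx.2⟩⟩
  · have himg : (h '' A).Infinite := by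
      intro hf
      apply hA
      have : A ⊆ ⋃ c ∈ h '' A, {x ∈ A | h x = c} := by
        intro x hx
        simp only [mem_iUnion]
        exact ⟨h x, mem_image_of_mem _ hx, hx, rfl⟩
      refine (hf.biUnion fun c _ => ?_).subset this
      by_contra hc
      exact hfin ⟨c, hc⟩
    obtain ⟨B, hB, hb⟩ := (surjOn_image h A).exists_bijOn_subset
    refine ⟨B, hB, ?_, Or.inr hb.injOn⟩
    intro hf
    apply himg
    rw [← hb.image_eq]
    exact hf.image h

theorem dense_Dn (h : ℕ → ℕ) (A : Pos) : ∃ B ∈ Dn h, R B A := by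
  have h1 := fun n => exists_const_or_inj (A.1 n) (A.2 n) h
  choose B hBA hBinf hB using h1
  by_cases hf : ∀ m, {x | h x = m}.Finite
  · obtain ⟨g, hg, hgS⟩ := exists_sdr
      (fun i => h '' ((fun x => Nat.pair (Nat.unpair i).1 x) '' B (Nat.unpair i).1)) (by
        intro i hfin
        apply hBinf (Nat.unpair i).1
        have h2 : ((fun x => Nat.pair (Nat.unpair i).1 x) '' B (Nat.unpair i).1).Finite := by
          have h3 : ((fun x => Nat.pair (Nat.unpair i).1 x) '' B (Nat.unpair i).1) ⊆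
              ⋃ c ∈ h '' ((fun x => Nat.pair (Nat.unpair i).1 x) '' B (Nat.unpair i).1),
                {x | h x = c} := by
            intro x hx
            simp only [mem_iUnion]
            exact ⟨h x, mem_image_of_mem _ hx, rfl⟩
          exact (hfin.biUnion fun c _ => hf c).subset h3
        exact h2.of_finite_image (fun x _ y _ hxy => by
          have := Nat.pair_eq_pair.1 hxy
          exact this.2))
    have h3 : ∀ i, ∃ x ∈ B (Nat.unpair i).1, h (Nat.pair (Nat.unpair i).1 x) = g i := by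
      intro i
      obtain ⟨_, ⟨x, hx, rfl⟩, he⟩ := hgS i
      exact ⟨x, hx, he⟩
    choose y hyB hy using h3
    refine ⟨⟨fun n => {x | ∃ i, (Nat.unpair i).1 = n ∧ x = y i}, ?_⟩, ⟨?_, ?_⟩, ?_⟩
    · intro n
      have hinj : Function.Injective fun j => y (Nat.pair n j) := by
        intro j k hjk
        have h4 := hy (Nat.pair n j)
        have h5 := hy (Nat.pair n k)
        simp only [Nat.unpair_pair] at h4 h5
        have hjk' : y (Nat.pair n j) = y (Nat.pair n k) := hjk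
        rw [hjk', h5] at h4
        have := hg h4
        exact ((Nat.pair_eq_pair.1 this).2).symm
      refine (infinite_range_of_injective hinj).mono ?_
      rintro _ ⟨j, rfl⟩
      exact ⟨Nat.pair n j, by simp, rfl⟩
    · intro n
      have hsub : {x | ∃ i, (Nat.unpair i).1 = n ∧ x = y i} ⊆ B n := by
        rintro _ ⟨i, rfl, rfl⟩
        exact hyB i
      rcases hB n with ⟨c, hc⟩ | hi
      · exact Or.inl ⟨c, fun x hx => hc x (hsub hx)⟩
      · exact Or.inr (hi.mono hsub)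
    · intro _
      rintro _ ⟨n, _, ⟨i, rfl, rfl⟩, rfl⟩ _ ⟨n', _, ⟨j, rfl, rfl⟩, rfl⟩ he
      rw [hy, hy] at he
      rw [hg he]
    · refine R.of_subset fun n => ?_
      rintro _ ⟨i, rfl, rfl⟩
      exact hBA _ (hyB i)
  · exact ⟨⟨B, hBinf⟩, ⟨hB, fun h' => absurd h' hf⟩, R.of_subset hBA⟩

/-! ### the recursion of length `ω₁` -/

theorem exists_chain {I : Type} [LinearOrder I] [WellFoundedLT I]
    (hI : ∀ a : I, Countable {b : I // b < a}) (D : I → Set Pos)
    (hD : ∀ a A, ∃ B ∈ D a, R B A) :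
    ∃ c : I → Pos, (∀ a, c a ∈ D a) ∧ ∀ a b, b < a → R (c a) (c b) := by
  classical
  let A₀ : Pos := ⟨fun _ => univ, fun _ => infinite_univ⟩
  let F : (a : I) → ((b : I) → b < a → Pos) → Pos := fun a f =>
    if h : ∃ B ∈ D a, ∀ b, ∀ hb : b < a, R B (f b hb) then h.choose else A₀
  let c : I → Pos := (wellFounded_lt (α := I)).fix F
  have hc : ∀ a, c a = F a fun b _ => c b := fun a => (wellFounded_lt (α := I)).fix_eq F a
  have key : ∀ a, c a ∈ D a ∧ ∀ b, b < a → R (c a) (c b) := by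
    intro a
    induction a using (wellFounded_lt (α := I)).induction with
    | _ a ih =>
      have hex : ∃ B ∈ D a, ∀ b, ∀ _ : b < a, R B (c b) := by
        haveI := hI a
        obtain ⟨L, hL⟩ := exists_lower (range fun b : {b : I // b < a} => c b.1)
          (countable_range _) (by
            rintro _ ⟨b, rfl⟩ _ ⟨b', rfl⟩
            rcases lt_trichotomy b.1 b'.1 with h | h | h
            · exact Or.inr ((ih b'.1 b'.2).2 b.1 h)
            · left
              show R (c b.1) (c b'.1)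
              rw [h]
              exact R.refl _
            · exact Or.inl ((ih b.1 b.2).2 b'.1 h))
        obtain ⟨B, hB, hBL⟩ := hD a L
        exact ⟨B, hB, fun b hb => hBL.trans (hL _ ⟨⟨b, hb⟩, rfl⟩)⟩
      have h1 : c a = hex.choose := by
        rw [hc]
        show dite _ _ _ = _
        rw [dif_pos hex]
      rw [h1]
      exact hex.choose_spec
  exact ⟨c, fun a => (key a).1, fun a b h => (key a).2 b h⟩

/-- Under CH there is a chain meeting all the requirements. -/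
theorem exists_generic (hCH : (ℵ₁ : Cardinal.{0}) = 𝔠) :
    ∃ (I : Type) (_ : LinearOrder I) (c : I → Pos), Nonempty I ∧ (∀ h : ℕ → ℕ, ∃ a, c a ∈ Dn h) ∧
      ∀ a b, b < a → R (c a) (c b) := by
  let I : Type := (ℵ₁ : Cardinal.{0}).ord.ToType
  have hI : ∀ a : I, Countable {b : I // b < a} := by
    intro a
    have h1 : Cardinal.mk (Set.Iio a) < ℵ₁ := Cardinal.mk_Iio_ord_toType a
    have h2 : Cardinal.mk (Set.Iio a) ≤ ℵ₀ := by
      rw [← Order.lt_succ_iff, Cardinal.succ_aleph0]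
      exact h1
    exact Cardinal.mk_le_aleph0_iff.1 h2
  have hcard : Cardinal.mk I = Cardinal.mk (ℕ → ℕ) := by
    rw [Cardinal.mk_ord_toType, hCH]
    simp
  obtain ⟨e⟩ := Cardinal.eq.1 hcard
  obtain ⟨c, hc1, hc2⟩ := exists_chain hI (fun a => Dn (e a)) (fun a A => dense_Dn _ A)
  refine ⟨I, inferInstance, c, ⟨e.symm id⟩, fun h => ⟨e.symm h, ?_⟩, hc2⟩
  have := hc1 (e.symm h)
  simpa using this

/-- CH: there are p-points `V n` such that the Fubini limits of the `V n` are q-points. -/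
theorem exists_seq (hCH : (ℵ₁ : Cardinal.{0}) = 𝔠) :
    ∃ V : ℕ → Ultrafilter ℕ, (∀ n, IsSelective (V n)) ∧
      ∀ h : ℕ → ℕ, (∀ m, {x | h x = m}.Finite) → ∃ B : ℕ → Set ℕ, (∀ n, B n ∈ V n) ∧
        InjOn h {y | ∃ n, ∃ x ∈ B n, y = Nat.pair n x} := by
  classical
  obtain ⟨I, _, c, ⟨a₀⟩, hc1, hc2⟩ := exists_generic hCH
  have hc2' : ∀ a b, b ≤ a → R (c a) (c b) := by
    intro a b h
    rcases h.lt_or_eq with h | h
    · exact hc2 a b h
    · rw [h]; exact R.refl _
  let F : ℕ → Filter ℕ := fun n => ⨅ a : I, cofinite ⊓ 𝓟 ((c a).1 n)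
  have hle : ∀ n a b, b ≤ a → cofinite ⊓ 𝓟 ((c a).1 n) ≤ cofinite ⊓ 𝓟 ((c b).1 n) := by
    intro n a b hab
    refine le_inf inf_le_left ?_
    rw [le_principal_iff, mem_inf_principal, mem_cofinite]
    refine (hc2' a b hab n).subset ?_
    intro x hx
    simpa using hx
  haveI hne : ∀ n, (F n).NeBot := by
    intro n
    haveI : Nonempty I := ⟨a₀⟩
    refine iInf_neBot_of_directed' ?_ fun a => cofinite_inf_principal_neBot_iff.2 ((c a).2 n)
    intro a b
    rcases le_total a b with h | h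
    · exact ⟨b, hle n b a h, le_rfl⟩
    · exact ⟨a, le_rfl, hle n a b h⟩
  let V : ℕ → Ultrafilter ℕ := fun n => Ultrafilter.of (F n)
  have hmem : ∀ n a, (c a).1 n ∈ V n := by
    intro n a
    have h1 : (V n : Filter ℕ) ≤ F n := Ultrafilter.of_le _
    have h2 : F n ≤ 𝓟 ((c a).1 n) := (iInf_le _ a).trans inf_le_right
    exact (h1.trans h2) (mem_principal_self _)
  have hcof : ∀ n, (V n : Filter ℕ) ≤ cofinite := fun n =>
    (Ultrafilter.of_le _).trans ((iInf_le _ a₀).trans inf_le_left)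
  have hnon : ∀ n, Nonprincipal (V n) := by
    intro n k hk
    have h1 : ({k} : Set ℕ)ᶜ ∈ V n := hcof n (finite_singleton k).compl_mem_cofinite
    exact (Ultrafilter.compl_notMem_iff.2 hk) h1
  refine ⟨V, fun n => ⟨hnon n, fun f => ?_⟩, fun h hh => ?_⟩
  · obtain ⟨a, ha⟩ := hc1 f
    rcases ha.1 n with h | h
    · exact Or.inl ⟨_, hmem n a, h⟩
    · exact Or.inr ⟨_, hmem n a, h⟩
  · obtain ⟨a, ha⟩ := hc1 h
    exact ⟨fun n => (c a).1 n, fun n => hmem n a, ha.2 hh⟩

theorem IsSelective.isPPoint {U : Ultrafilter ℕ} (h : IsSelective U) : IsPPoint U := by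
  refine ⟨h.1, fun f => ?_⟩
  rcases h.2 f with h1 | ⟨X, hX, hi⟩
  · exact Or.inl h1
  · refine Or.inr ⟨X, hX, fun m => ?_⟩
    refine Set.Subsingleton.finite ?_
    intro x hx y hy
    exact hi hx.1 hy.1 (hx.2.trans hy.2.symm)

theorem main (hCH : (ℵ₁ : Cardinal.{0}) = 𝔠) :
    ∃ U V : Ultrafilter ℕ, Iterate 2 U ∧ IsQPoint V ∧ TukeyLE V U ∧ ¬ IsSelective V := by
  obtain ⟨V, hV, hq⟩ := exists_seq hCH
  have hmono : ∀ {U : Ultrafilter ℕ}, Nonprincipal U → ∀ X ∈ U, ∀ c : ℕ, ∃ x ∈ X, x ≠ c := by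
    intro U hU X hX c
    by_contra hcon
    push Not at hcon
    exact hU c (mem_of_superset hX fun x hx => hcon x hx)
  have hnonlim : Nonprincipal (fubiniLim (V 0) V) := by
    intro k hk
    rw [mem_fubiniLim] at hk
    obtain ⟨n, hn, -⟩ := hmono (hV 0).1 _ hk 0
    refine (hV n).1 (Nat.unpair k).2 (mem_of_superset hn ?_)
    intro x hx
    have hx' : Nat.pair n x = k := hx
    rw [← hx']
    simp
  refine ⟨fubiniLim (V 0) V, fubiniLim (V 0) V, ?_, ⟨hnonlim, ?_⟩, TukeyLE.refl _, ?_⟩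
  · exact Iterate.lim (hV 0).isPPoint fun n => Iterate.base (hV n).isPPoint
  · intro h hh
    obtain ⟨B, hB, hi⟩ := hq h hh
    refine ⟨_, ?_, hi⟩
    rw [mem_fubiniLim]
    refine univ_mem' fun n => ?_
    exact mem_of_superset (hB n) fun x hx => ⟨n, x, hx, rfl⟩
  · rintro ⟨-, hsel⟩
    rcases hsel fun y => (Nat.unpair y).1 with ⟨X, hX, c, hc⟩ | ⟨X, hX, hi⟩
    · rw [mem_fubiniLim] at hX
      obtain ⟨n, hn, hnc⟩ := hmono (hV 0).1 _ hX c
      obtain ⟨x, hx, -⟩ := hmono (hV n).1 _ hn 0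
      have := hc _ hx
      simp only [Nat.unpair_pair] at this
      exact hnc this
    · rw [mem_fubiniLim] at hX
      obtain ⟨n, hn, -⟩ := hmono (hV 0).1 _ hX 0
      obtain ⟨x, hx, -⟩ := hmono (hV n).1 _ hn 0
      obtain ⟨y, hy, hyx⟩ := hmono (hV n).1 _ hn x
      have := hi hx hy (by simp)
      exact hyx ((Nat.pair_eq_pair.1 this).2).symm

end Pool.Agent.R588.QP
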